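import Pool.Agent.WRN.Final

/-!
Under the continuum hypothesis there is an infinite (zero-dimensional) weak Radon-Nikodym compactum in
which every convergent sequence is eventually constant.
-/

set_option autoImplicit false

theorem Pool.Agent.Results.MP_20791f_an.NegativeUnderCH.result
    (hCH : Cardinal.continuum.{0} = Cardinal.aleph.{0} 1) :
    ∃ (K : Type) (_ : TopologicalSpace K) (_ : CompactSpace K) (_ : T2Space K) (_ : Infinite K)
      (_ : TotallyDisconnectedSpace K)
      (E : Type) (_ : NormedAddCommGroup E) (_ : NormedSpace ℝ E) (_ : CompleteSpace E),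
      (¬ ∃ (x : ℕ → E) (M : ℝ) (δ : ℝ), (∀ n, ‖x n‖ ≤ M) ∧ 0 < δ ∧
          ∀ (n : ℕ) (a : ℕ → ℝ),
            δ * ∑ i ∈ Finset.range n, |a i| ≤ ‖∑ i ∈ Finset.range n, a i • x i‖) ∧
      (∃ S : Set (WeakDual ℝ E), IsCompact S ∧ Nonempty (K ≃ₜ S)) ∧
      ∀ (x : ℕ → K) (y : K), Filter.Tendsto x Filter.atTop (nhds y) →
        ∀ᶠ n in Filter.atTop, x n = y :=
  Pool.Agent.WRN.main_CH hCH
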