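import Pool.Agent.WRN.Criterion

/-!
A criterion (in ZFC) for a compact space to be weak Radon-Nikodym: it suffices that the points are
separated by continuous functions attached to the nodes of a binary tree of height at most omega_1,
each of which depends only on the node at which a point leaves the node of the function.
-/

set_option autoImplicit false

theorem Pool.Agent.Results.MP_20791f_an.TreeCriterion.result
    {I K T : Type} [LinearOrder I] [WellFoundedLT I] (hcount : ∀ a : I, (Set.Iic a).Countable)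
    [TopologicalSpace K] [CompactSpace K] [T2Space K] (π : K → I → Bool)
    (f : T → K → ℝ) (hfc : ∀ t, Continuous (f t)) (hf : ∀ t x, |f t x| ≤ 1)
    (hsep : ∀ x y, x ≠ y → ∃ t, f t x ≠ f t y) (lev : T → I) (br : T → I → Bool)
    (hdep : ∀ t x y b, (∀ z ≤ b, π x z = π y z) → (lev t ≤ b ∨ ∃ z ≤ b, π x z ≠ br t z) →
      f t x = f t y) :
    ∃ (E : Type) (_ : NormedAddCommGroup E) (_ : NormedSpace ℝ E) (_ : CompleteSpace E),
      (¬ ∃ (x : ℕ → E) (M : ℝ) (δ : ℝ), (∀ n, ‖x n‖ ≤ M) ∧ 0 < δ ∧
          ∀ (n : ℕ) (a : ℕ → ℝ),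
            δ * ∑ i ∈ Finset.range n, |a i| ≤ ‖∑ i ∈ Finset.range n, a i • x i‖) ∧
      ∃ S : Set (WeakDual ℝ E), IsCompact S ∧ Nonempty (K ≃ₜ S) :=
  Pool.Agent.WRN.criterion hcount π f hfc hf hsep lev br hdep
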